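import Pool.Agent.H217.Fano.Sample
import Pool.Graph.R_seed8.Results.MP_869403_co.LogOrder

/-!
# The leading constant in the logarithmic upper bound for `Γ_p(H(n,r))`

Let `1 ≤ p < r`, `0 < δ < 1` and `C(r,p) (1 - δ) ^ (r - p) < 1`.  Then for all `n ≥ r`
`Γ_p(H(n,r)) ≤ p (log n / log (1 / δ) + 1) + r`.

Proof.  Fix an orientation without directed `p`-dominating set of size `K + r`, where `K = N p` and
`n δ ^ N < 1`, and a set `T` of `r` vertices.  Say that `u` escapes `S` if no edge containing `u`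
has its first `p` vertices in `S`.  By the minimax theorem there is a probability distribution on
the vertices such that for all sets `P` of at most `p` vertices `P ∪ T` is escaped with
probability at least `d`, for a `d` slightly smaller than `δ` (otherwise `N` random sets `P`
would have a union with `T` which is not escaped).  Take `r` independent random vertices.  The
expected number of `p`-sets of them which are not escaped (together with `T`) by one of the others
is at most `C(r,p) (1 - d) ^ (r - p) < 1`.  So there is a set `X` of at most `r` vertices such that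
the union of `T` and any at most `p` members of `X` is escaped by a member of `X`.  An edge which
contains `X` and otherwise members of `T` has `p` first vertices, which are escaped by a vertex of
the edge: a contradiction.
-/

set_option autoImplicit false

namespace Pool.Agent.Results.MP_869403_co.LeadingConstant

open Finset Pool.Agent.Results.MP_869403_co.LogOrder

/-- `u` escapes `S`: every edge containing `u` has one of its first `p` vertices outside `S`. -/
def Esc (p : ℕ) {n r : ℕ} (D : Orientation n r) (u : Fin n) (S : Finset (Fin n)) : Prop :=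
  ∀ E : {E : Finset (Fin n) // E.card = r}, u ∈ E.1 → ∃ i : Fin r, i.val < p ∧ (D E i).1 ∉ S

lemma Esc.mono {p n r : ℕ} {D : Orientation n r} {u : Fin n} {S S' : Finset (Fin n)}
    (h : Esc p D u S) (hS : S' ⊆ S) : Esc p D u S' := by
  intro E hE
  obtain ⟨i, hi, h1⟩ := h E hE
  exact ⟨i, hi, fun h2 => h1 (hS h2)⟩

lemma exists_esc {p n r k : ℕ} {D : Orientation n r} (hk : k < gamma p D) (S : Finset (Fin n))
    (hS : S.card ≤ k) : ∃ u, Esc p D u S := by
  by_contra hcon
  push Not at hcon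
  have h1 : IsDominating p D S := by
    intro u _
    have h2 := hcon u
    unfold Esc at h2
    push Not at h2
    exact h2
  have h3 := gamma_le h1
  omega

/-- The main step. -/
lemma main_step {p n r N : ℕ} (hpr : p < r) (hn : r ≤ n) {δ : ℝ}
    (hδ : (r.choose p : ℝ) * (1 - δ) ^ (r - p) < 1) (hN : (n : ℝ) * δ ^ N < 1)
    (D : Orientation n r) : gamma p D ≤ N * p + r := by
  classical
  by_contra hcon
  push Not at hcon
  obtain ⟨T, _, hT⟩ := Finset.exists_subset_card_eq
    (s := (Finset.univ : Finset (Fin n))) (n := r) (by rwa [Finset.card_univ, Fintype.card_fin])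
  obtain ⟨ε, hε, hε1⟩ : ∃ ε : ℝ, 0 < ε ∧ (r.choose p : ℝ) * (1 - (δ - ε)) ^ (r - p) < 1 := by
    have h1 : Filter.Tendsto (fun x : ℝ => (r.choose p : ℝ) * (1 - (δ - x)) ^ (r - p)) (nhds 0)
        (nhds ((r.choose p : ℝ) * (1 - (δ - 0)) ^ (r - p))) := by
      apply Continuous.tendsto
      fun_prop
    rw [sub_zero] at h1
    have h2 := (h1.eventually (gt_mem_nhds hδ)).filter_mono
      (nhdsWithin_le_nhds (s := Set.Ioi (0 : ℝ)))
    obtain ⟨x, h3, h4⟩ := (h2.and self_mem_nhdsWithin).exists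
    exact ⟨x, h4, h3⟩
  obtain ⟨ν, hν, hν1⟩ := Pool.Agent.H217.Fano.universal_sharp (V := Fin n)
    (E := fun u S => Esc p D u (S ∪ T))
    (fun u S S' hS h => h.mono (Finset.union_subset_union hS (subset_refl T)))
    (K := N * p) (fun S hS => exists_esc hcon (S ∪ T)
      ((Finset.card_union_le _ _).trans (by omega))) (m := p) (N := N) le_rfl hε
    (by rwa [Fintype.card_fin])
  obtain ⟨v, hv⟩ := Pool.Agent.H217.Fano.exists_sample hν hν1 hε1
  set X : Finset (Fin n) := Finset.univ.image v with hX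
  have hXc : X.card ≤ r := by
    refine Finset.card_image_le.trans ?_
    rw [Finset.card_univ, Fintype.card_fin]
  obtain ⟨E, hE1, hE2, hE3⟩ := Finset.exists_subsuperset_card_eq
    (Finset.subset_union_left : X ⊆ X ∪ T) hXc
    (hT.ge.trans (Finset.card_le_card Finset.subset_union_right))
  -- the indices of the sampled vertices among the first `p` vertices of `E`
  set F : Finset (Fin r) := Finset.univ.filter (fun i => i.val < p) with hF
  have hFc : F.card ≤ p := by
    have h1 : F.card ≤ (Finset.range p).card := by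
      apply Finset.card_le_card_of_injOn (fun i => i.val)
      · intro i hi
        rw [hF] at hi
        simpa using hi
      · intro i _ j _ hij
        exact Fin.ext hij
    simpa using h1
  have hg : ∀ i : Fin r, ∃ a : Fin r, (D ⟨E, hE3⟩ i).1 = v a ∨ (D ⟨E, hE3⟩ i).1 ∈ T := by
    intro i
    rcases Finset.mem_union.1 (hE2 (D ⟨E, hE3⟩ i).2) with h | h
    · obtain ⟨a, _, ha⟩ := Finset.mem_image.1 h
      exact ⟨a, Or.inl ha.symm⟩
    · exact ⟨i, Or.inr h⟩
  choose g hg using hg
  obtain ⟨I, hI1, hI2⟩ : ∃ I : Finset (Fin r), F.image g ⊆ I ∧ I.card = p := by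
    obtain ⟨I, h1, _, h2⟩ := Finset.exists_subsuperset_card_eq
      (Finset.subset_univ (F.image g)) (Finset.card_image_le.trans hFc)
      (by rw [Finset.card_univ, Fintype.card_fin]; exact hpr.le)
    exact ⟨I, h1, h2⟩
  obtain ⟨j, hj⟩ := hv I hI2
  obtain ⟨i, hi, h8⟩ := hj ⟨E, hE3⟩ (hE1 (Finset.mem_image_of_mem _ (Finset.mem_univ j)))
  apply h8
  rcases hg i with h | h
  · rw [h]
    apply Finset.mem_union_left
    have hiF : i ∈ F := by
      rw [hF]
      simpa using hi
    exact (@Finset.mem_image _ _ (fun a b => Classical.propDecidable (a = b)) v I _).2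
      ⟨g i, hI1 (Finset.mem_image.2 ⟨i, hiF, rfl⟩), rfl⟩
  · exact Finset.mem_union_right _ h

lemma explicit {p r : ℕ} (hpr : p < r) {δ : ℝ} (hδ0 : 0 < δ) (hδ1 : δ < 1)
    (hδ : (r.choose p : ℝ) * (1 - δ) ^ (r - p) < 1) {n : ℕ} (hn : r ≤ n) :
    (Gamma p n r : ℝ) ≤ p * (Real.log n / Real.log (1 / δ) + 1) + r := by
  have hn0 : (1 : ℝ) ≤ n := by exact_mod_cast (by omega : 1 ≤ n)
  have hl : 0 < Real.log (1 / δ) := Real.log_pos (by rw [one_div]; exact (one_lt_inv₀ hδ0).2 hδ1)
  have hL : 0 ≤ Real.log n := Real.log_nonneg hn0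
  set N := ⌊Real.log n / Real.log (1 / δ)⌋₊ + 1 with hN
  have hN1 : Real.log n / Real.log (1 / δ) < N := by
    rw [hN]
    push_cast
    exact Nat.lt_floor_add_one _
  have hN2 : (N : ℝ) ≤ Real.log n / Real.log (1 / δ) + 1 := by
    rw [hN]
    push_cast
    have := Nat.floor_le (show 0 ≤ Real.log n / Real.log (1 / δ) by positivity)
    linarith
  have hN3 : (n : ℝ) * δ ^ N < 1 := by
    rw [div_lt_iff₀ hl] at hN1
    have h1 : Real.log (n * δ ^ N) < 0 := by
      rw [Real.log_mul (by linarith) (by positivity), Real.log_pow]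
      rw [one_div, Real.log_inv] at hN1
      linarith
    by_contra hcon
    push Not at hcon
    have := Real.log_nonneg hcon
    linarith
  have h5 : (Gamma p n r : ℝ) ≤ ((N * p + r : ℕ) : ℝ) := by
    exact_mod_cast Gamma_le (fun D => main_step hpr hn hδ hN3 D)
  push_cast at h5
  have h6 : (N : ℝ) * p ≤ (Real.log n / Real.log (1 / δ) + 1) * p :=
    mul_le_mul_of_nonneg_right hN2 (Nat.cast_nonneg _)
  linarith

lemma log_tendsto : Filter.Tendsto (fun n : ℕ => Real.log n) Filter.atTop Filter.atTop :=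
  Real.tendsto_log_atTop.comp tendsto_natCast_atTop_atTop

lemma exp_lt_one' {x : ℝ} (hx : x < 0) : Real.exp x < 1 :=
  (Real.exp_lt_exp.2 hx).trans_eq Real.exp_zero

/-- A bound for all large `n` from the explicit bound. -/
lemma eventually_le {p r : ℕ} (hpr : p < r) {δ : ℝ} (hδ0 : 0 < δ) (hδ1 : δ < 1)
    (hδ : (r.choose p : ℝ) * (1 - δ) ^ (r - p) < 1) {c : ℝ} (hc : p / Real.log (1 / δ) < c) :
    ∀ᶠ n : ℕ in Filter.atTop, (Gamma p n r : ℝ) ≤ c * Real.log n := by
  set a := c - p / Real.log (1 / δ) with ha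
  have ha0 : 0 < a := by rw [ha]; linarith
  filter_upwards [log_tendsto.eventually_ge_atTop ((p + r) / a), Filter.eventually_ge_atTop r]
    with n h1 h2
  have h3 := explicit hpr hδ0 hδ1 hδ h2
  rw [div_le_iff₀ ha0] at h1
  have h4 : (p : ℝ) * (Real.log n / Real.log (1 / δ) + 1) =
      p / Real.log (1 / δ) * Real.log n + p := by ring
  have h5 : c = a + p / Real.log (1 / δ) := by rw [ha]; ring
  rw [h4] at h3
  rw [h5, add_mul]
  linarith

/-- For fixed `p` and `δ` the condition holds for all large `r`. -/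
lemma cond_fixed (p : ℕ) {δ : ℝ} (hδ0 : 0 < δ) (hδ1 : δ < 1) :
    ∀ᶠ r : ℕ in Filter.atTop, (r.choose p : ℝ) * (1 - δ) ^ (r - p) < 1 := by
  have h1 := tendsto_pow_const_mul_const_pow_of_abs_lt_one p
    (show |1 - δ| < 1 by rw [abs_lt]; constructor <;> linarith)
  have h0 : 0 < 1 - δ := by linarith
  have h2 : 0 < (1 - δ) ^ p := pow_pos h0 p
  filter_upwards [h1.eventually (gt_mem_nhds h2), Filter.eventually_ge_atTop p] with r h3 h4
  have h5 : (r.choose p : ℝ) ≤ (r : ℝ) ^ p := by exact_mod_cast Nat.choose_le_pow r p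
  have h6 : (1 - δ) ^ r = (1 - δ) ^ (r - p) * (1 - δ) ^ p := by
    rw [← pow_add, Nat.sub_add_cancel h4]
  rw [h6, ← mul_assoc] at h3
  have h7 : (r : ℝ) ^ p * (1 - δ) ^ (r - p) < 1 := by
    by_contra hcon
    push Not at hcon
    have := mul_le_mul_of_nonneg_right hcon h2.le
    linarith
  refine lt_of_le_of_lt ?_ h7
  exact mul_le_mul_of_nonneg_right h5 (pow_nonneg h0.le _)

/-- For `2 ^ (s p) ≤ r ≤ 2 ^ (p + 1) - 2` the condition holds with `δ = 2 ^ (- t p)`, `t < s`, for
all large `p`. -/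
lemma cond_range {s t : ℝ} (ht0 : 0 < t) (hts : t < s) :
    ∀ᶠ p : ℕ in Filter.atTop, ∀ r : ℕ, (2 : ℝ) ^ (s * p) ≤ r → r + 2 ≤ 2 ^ (p + 1) → p < r ∧
      (r.choose p : ℝ) * (1 - (2 : ℝ) ^ (-(t * p))) ^ (r - p) < 1 := by
  have hA : Filter.Tendsto (fun p : ℕ => (p : ℝ) ^ 2 * (((2 : ℝ) ^ (s - t))⁻¹) ^ p) Filter.atTop
      (nhds 0) := by
    apply tendsto_pow_const_mul_const_pow_of_abs_lt_one
    rw [abs_of_pos (by positivity)]
    apply inv_lt_one_of_one_lt₀
    exact Real.one_lt_rpow (by norm_num) (by linarith)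
  have hB : Filter.Tendsto (fun p : ℕ => (p : ℝ) ^ 1 * (((2 : ℝ) ^ s)⁻¹) ^ p) Filter.atTop
      (nhds 0) := by
    apply tendsto_pow_const_mul_const_pow_of_abs_lt_one
    rw [abs_of_pos (by positivity)]
    apply inv_lt_one_of_one_lt₀
    exact Real.one_lt_rpow (by norm_num) (by linarith)
  filter_upwards [hA.eventually (gt_mem_nhds (show (0 : ℝ) < 1 / 4 by norm_num)),
    hB.eventually (gt_mem_nhds (show (0 : ℝ) < 1 / 2 by norm_num)),
    Filter.eventually_ge_atTop 2] with p h1 hb h2 r hr1 hr2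
  have hp0 : (0 : ℝ) < p := by exact_mod_cast (by omega : 0 < p)
  have hs : (2 : ℝ) ^ (s * p) = ((2 : ℝ) ^ s) ^ p := by
    rw [← Real.rpow_natCast, ← Real.rpow_mul (by norm_num)]
  rw [pow_one, inv_pow, ← div_eq_mul_inv, div_lt_iff₀ (by positivity), ← hs] at hb
  have h2p : 2 * (p : ℝ) < r := by linarith
  have h3 : p < r := by
    have : (p : ℝ) < r := by linarith
    exact_mod_cast this
  refine ⟨h3, ?_⟩
  set δ : ℝ := (2 : ℝ) ^ (-(t * p)) with hδ
  have hδ0 : 0 < δ := by positivity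
  have hδ1 : δ < 1 := by
    rw [hδ]
    apply Real.rpow_lt_one_of_one_lt_of_neg (by norm_num)
    have : 0 < t * p := by positivity
    linarith
  have h5 : (r.choose p : ℝ) ≤ Real.exp ((p + 1) * p * Real.log 2) := by
    have h6 : (r.choose p : ℝ) ≤ ((2 : ℝ) ^ (p + 1)) ^ p := by
      have h7 : r.choose p ≤ (2 ^ (p + 1)) ^ p := by
        refine (Nat.choose_le_pow r p).trans (Nat.pow_le_pow_left ?_ p)
        omega
      exact_mod_cast h7
    refine h6.trans (le_of_eq ?_)
    rw [← pow_mul, ← Real.exp_log (show (0 : ℝ) < 2 ^ ((p + 1) * p) by positivity), Real.log_pow]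
    push_cast
    rfl
  have h8 : (1 - δ) ^ (r - p) ≤ Real.exp (-(δ * (r - p))) := by
    calc (1 - δ) ^ (r - p) ≤ (Real.exp (-δ)) ^ (r - p) := by
          apply pow_le_pow_left₀ (by linarith)
          have := Real.add_one_le_exp (-δ)
          linarith
      _ = Real.exp (-(δ * (r - p))) := by
          rw [← Real.exp_nat_mul, Nat.cast_sub h3.le]
          ring_nf
  have h9 : δ * (2 : ℝ) ^ (s * p) = ((2 : ℝ) ^ (s - t)) ^ p := by
    rw [hδ, ← Real.rpow_natCast, ← Real.rpow_mul (by norm_num), ← Real.rpow_add (by norm_num)]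
    congr 1
    ring
  have h10 : (p : ℝ) ^ 2 * 4 < δ * (2 : ℝ) ^ (s * p) := by
    rw [h9]
    rw [inv_pow, ← div_eq_mul_inv, div_lt_iff₀ (by positivity)] at h1
    linarith
  have hlog2 : Real.log 2 < 1 := by
    have := Real.log_two_lt_d9
    linarith
  have h15 : δ * (2 : ℝ) ^ (s * p) ≤ 2 * (δ * (r - p)) := by
    have h16 : (2 : ℝ) ^ (s * p) ≤ 2 * (r - p) := by linarith
    have := mul_le_mul_of_nonneg_left h16 hδ0.le
    linarith
  have h11 : (p + 1 : ℝ) * p * Real.log 2 < δ * (r - p) := by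
    have h12 : (1 : ℝ) ≤ p := by exact_mod_cast (by omega : 1 ≤ p)
    have h14 : (p + 1 : ℝ) * p * Real.log 2 ≤ (p + 1 : ℝ) * p * 1 :=
      mul_le_mul_of_nonneg_left hlog2.le (by positivity)
    nlinarith
  calc (r.choose p : ℝ) * (1 - δ) ^ (r - p) ≤
        Real.exp ((p + 1) * p * Real.log 2) * Real.exp (-(δ * (r - p))) :=
        mul_le_mul h5 h8 (pow_nonneg (by linarith) _) (Real.exp_pos _).le
    _ = Real.exp ((p + 1) * p * Real.log 2 - δ * (r - p)) := by
        rw [← Real.exp_add]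
        ring_nf
    _ < 1 := exp_lt_one' (by linarith)

/-- **The leading constant of `Γ_p(H(n,r))`.**
(1) If `1 ≤ p < r`, `0 < δ < 1` and `C(r,p) (1 - δ) ^ (r - p) < 1` then
`Γ_p(H(n,r)) ≤ p (log n / log (1 / δ) + 1) + r` for all `n ≥ r`.
(2) For every `p ≥ 1` and `ε > 0` and all large `r`: `Γ_p(H(n,r)) ≤ ε log n` for all large `n`.
(3) For every `ε > 0` there is `s < 1` such that for all large `p` and all `r` with
`2 ^ (s p) ≤ r ≤ 2 ^ (p + 1) - 2`: `(1 - ε) log₂ n ≤ Γ_p(H(n,r)) ≤ (1 + ε) log₂ n` for all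
large `n`. -/
theorem result :
    (∀ p r : ℕ, 1 ≤ p → p < r → ∀ δ : ℝ, 0 < δ → δ < 1 →
      (r.choose p : ℝ) * (1 - δ) ^ (r - p) < 1 → ∀ n : ℕ, r ≤ n →
        (Gamma p n r : ℝ) ≤ p * (Real.log n / Real.log (1 / δ) + 1) + r) ∧
    (∀ p : ℕ, 1 ≤ p → ∀ ε : ℝ, 0 < ε → ∃ r₀ : ℕ, ∀ r : ℕ, r₀ ≤ r →
      ∀ᶠ n : ℕ in Filter.atTop, (Gamma p n r : ℝ) ≤ ε * Real.log n) ∧
    (∀ ε : ℝ, 0 < ε → ∃ s : ℝ, 0 < s ∧ s < 1 ∧ ∃ p₀ : ℕ, ∀ p : ℕ, p₀ ≤ p → ∀ r : ℕ,
      (2 : ℝ) ^ (s * p) ≤ r → r + 2 ≤ 2 ^ (p + 1) → ∀ᶠ n : ℕ in Filter.atTop,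
        (1 - ε) * Real.logb 2 n ≤ (Gamma p n r : ℝ) ∧
        (Gamma p n r : ℝ) ≤ (1 + ε) * Real.logb 2 n) := by
  refine ⟨fun p r _ hpr δ hδ0 hδ1 hδ n hn => explicit hpr hδ0 hδ1 hδ hn, fun p hp ε hε => ?_,
    fun ε hε => ?_⟩
  · -- (2)
    have hp0 : (0 : ℝ) < p := by exact_mod_cast hp
    set δ := Real.exp (-(2 * p / ε)) with hδ
    have hδ0 : 0 < δ := Real.exp_pos _
    have hδ1 : δ < 1 := by
      rw [hδ]
      apply exp_lt_one'
      have : 0 < 2 * p / ε := by positivity
      linarith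
    obtain ⟨r₀, hr₀⟩ := Filter.eventually_atTop.1
      ((cond_fixed p hδ0 hδ1).and (Filter.eventually_gt_atTop p))
    refine ⟨r₀, fun r hr => ?_⟩
    obtain ⟨h1, h2⟩ := hr₀ r hr
    apply eventually_le h2 hδ0 hδ1 h1
    have h3 : Real.log (1 / δ) = 2 * p / ε := by
      rw [one_div, Real.log_inv, hδ, Real.log_exp]
      ring
    rw [h3]
    have h4 : (p : ℝ) / (2 * p / ε) = ε / 2 := by
      field_simp
    rw [h4]
    linarith
  · -- (3)
    set t : ℝ := 1 / (1 + ε / 2) with ht
    have ht0 : 0 < t := by positivity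
    have ht1 : t < 1 := by
      rw [ht, div_lt_one (by positivity)]
      linarith
    obtain ⟨p₀, hp₀⟩ := Filter.eventually_atTop.1
      ((cond_range ht0 (show t < (1 + t) / 2 by linarith)).and (Filter.eventually_ge_atTop 2))
    refine ⟨(1 + t) / 2, by linarith, by linarith, p₀, fun p hp r hr1 hr2 => ?_⟩
    obtain ⟨h0, h3⟩ := hp₀ p hp
    obtain ⟨h1, h2⟩ := h0 r hr1 hr2
    have hp0 : (0 : ℝ) < p := by exact_mod_cast (by omega : 0 < p)
    have hlog2 : (0 : ℝ) < Real.log 2 := Real.log_pos (by norm_num)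
    set δ : ℝ := (2 : ℝ) ^ (-(t * p)) with hδ
    have hδ0 : 0 < δ := by positivity
    have hδ1 : δ < 1 := by
      rw [hδ]
      apply Real.rpow_lt_one_of_one_lt_of_neg (by norm_num)
      have : 0 < t * p := by positivity
      linarith
    have h4 : Real.log (1 / δ) = t * p * Real.log 2 := by
      rw [one_div, Real.log_inv, hδ, Real.log_rpow (by norm_num)]
      ring
    have h5 : (p : ℝ) / Real.log (1 / δ) < (1 + ε) / Real.log 2 := by
      rw [h4, ht]
      have h6 : (p : ℝ) / (1 / (1 + ε / 2) * p * Real.log 2) = (1 + ε / 2) / Real.log 2 := by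
        field_simp
      rw [h6]
      apply div_lt_div_of_pos_right _ hlog2
      linarith
    have hlogb : Filter.Tendsto (fun n : ℕ => Real.logb 2 n) Filter.atTop Filter.atTop :=
      (Real.tendsto_logb_atTop (by norm_num)).comp tendsto_natCast_atTop_atTop
    have h7 : ∀ᶠ x : ℝ in Filter.atTop, 2 * Real.logb 2 x ≤ ε * x := by
      have h8 := Real.isLittleO_log_id_atTop.bound (show (0 : ℝ) < ε * Real.log 2 / 2 by positivity)
      filter_upwards [h8, Filter.eventually_ge_atTop 1] with x h9 h10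
      rw [Real.norm_of_nonneg (Real.log_nonneg h10), id, Real.norm_of_nonneg (by linarith)] at h9
      rw [Real.logb, mul_div_assoc', div_le_iff₀ hlog2]
      linarith
    have h11 := (Pool.Agent.Results.MP_869403_co.LogOrder.result r p (by omega) h1 hr2).1
    filter_upwards [eventually_le h1 hδ0 hδ1 h2 h5, hlogb.eventually h7,
      Filter.eventually_ge_atTop 4] with n h12 h13 h14
    refine ⟨?_, ?_⟩
    · have h15 := (h11 n h14).1
      linarith
    · refine h12.trans (le_of_eq ?_)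
      rw [Real.logb]
      ring

end Pool.Agent.Results.MP_869403_co.LeadingConstant
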