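import Pool.Graph.R_seed8.Results.MP_869403_co.LogPowerLower

/-!
# `Γ_p(H(n,r))` is at least of order `√(log n)` for `r + 1 < 16 (5 / 2) ^ (p - 2)`

In particular for `p = 2`, `r ≤ 14`; `p = 3`, `r ≤ 38`; `p = 4`, `r ≤ 98`.

Proof.  By the library there is, on `2 ^ (126 k ^ 2)` vertices, a digraph without closed walks of
length at most three in which any `k` vertices have a common in-neighbour.  We show that such a
digraph on `r` vertices has `p` vertices without a common in-neighbour: put these `p` vertices in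
front.

Let `p = 2` and let any two vertices have a common in-neighbour.  Then every vertex `x` has at least five
in-neighbours: there is a walk `z₅ → z₄ → z₃ → z₂ → z₁` of in-neighbours of `x`; if it is not
a closed walk of length four then the five are distinct, otherwise a common in-neighbour `w` of `z₁`
and `z₃` or a common in-neighbour of `w` and `x` is a fifth in-neighbour of `x`.  So some `x` has at
least five out-neighbours `B`.  Let `A` be the set of the in-neighbours of `x`.  Some `y ∈ A` has at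
most `(|A| - 1) / 2` in-neighbours in `A` (at most one if `|A| ≤ 6`, by the same argument), and it
has none in `B ∪ {x}`, so there are at least 15 vertices.  For `p + 1` instead of `p` the
in-neighbours of a vertex form a digraph of the same kind for `p`, and if all in-degrees are at least
`d` then the same count gives `2 (r + 1) ≥ 5 (d + 1)`.
-/

set_option autoImplicit false

namespace Pool.Agent.Results.MP_869403_co.SqrtLogLower

open Finset Pool.Agent.Y400.Dom Pool.Agent.Results.MP_869403_co.LogOrder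

lemma five {α : Type} [DecidableEq α] {S : Finset α} {a b c d e : α} (ha : a ∈ S) (hb : b ∈ S)
    (hc : c ∈ S) (hd : d ∈ S) (he : e ∈ S) (hab : a ≠ b) (hac : a ≠ c) (had : a ≠ d) (hae : a ≠ e)
    (hbc : b ≠ c) (hbd : b ≠ d) (hbe : b ≠ e) (hcd : c ≠ d) (hce : c ≠ e) (hde : d ≠ e) :
    5 ≤ S.card := by
  have h1 : ({a, b, c, d, e} : Finset α) ⊆ S := by
    intro x hx
    simp only [Finset.mem_insert, Finset.mem_singleton] at hx
    rcases hx with rfl | rfl | rfl | rfl | rfl <;> assumption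
  have h2 : ({a, b, c, d, e} : Finset α).card = 5 := by
    rw [Finset.card_insert_of_notMem (by simp [hab, hac, had, hae]),
      Finset.card_insert_of_notMem (by simp [hbc, hbd, hbe]),
      Finset.card_insert_of_notMem (by simp [hcd, hce]),
      Finset.card_insert_of_notMem (by simp [hde]), Finset.card_singleton]
  rw [← h2]
  exact Finset.card_le_card h1

section digraph

variable {W : Type} [Fintype W] [DecidableEq W] {Q : W → W → Prop} [DecidableRel Q]

/-- Every vertex has at least five in-neighbours. -/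
lemma five_le_in (h1 : ∀ x, ¬ Q x x) (h2 : ∀ x y, Q x y → ¬ Q y x)
    (h3 : ∀ x y z, Q x y → Q y z → ¬ Q z x) (hU : ∀ x y, ∃ z, Q z x ∧ Q z y) (x : W) :
    5 ≤ (Finset.univ.filter (fun z => Q z x)).card := by
  have hm : ∀ z, Q z x → z ∈ Finset.univ.filter (fun z => Q z x) := fun z hz => by
    rw [Finset.mem_filter]
    exact ⟨Finset.mem_univ _, hz⟩
  have hne : ∀ {a b}, Q a b → a ≠ b := fun {a b} h hab => h1 a (by rw [← hab] at h; exact h)
  obtain ⟨z1, e1, -⟩ := hU x x
  obtain ⟨z2, e2, f2⟩ := hU x z1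
  obtain ⟨z3, e3, f3⟩ := hU x z2
  obtain ⟨z4, e4, f4⟩ := hU x z3
  obtain ⟨z5, e5, f5⟩ := hU x z4
  have n12 : z1 ≠ z2 := (hne f2).symm
  have n23 : z2 ≠ z3 := (hne f3).symm
  have n34 : z3 ≠ z4 := (hne f4).symm
  have n45 : z4 ≠ z5 := (hne f5).symm
  have n13 : z1 ≠ z3 := by
    rintro rfl
    exact h2 _ _ f2 f3
  have n24 : z2 ≠ z4 := by
    rintro rfl
    exact h2 _ _ f3 f4
  have n35 : z3 ≠ z5 := by
    rintro rfl
    exact h2 _ _ f4 f5
  have n14 : z1 ≠ z4 := by
    rintro rfl
    exact h3 _ _ _ f3 f2 f4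
  have n25 : z2 ≠ z5 := by
    rintro rfl
    exact h3 _ _ _ f4 f3 f5
  by_cases n15 : z1 = z5
  · subst n15
    -- the closed walk `z4 → z3 → z2 → z1 → z4`
    obtain ⟨w, w1, w3⟩ := hU z1 z3
    have m1 : z1 ≠ w := (hne w1).symm
    have m3 : z3 ≠ w := (hne w3).symm
    have m2 : z2 ≠ w := by
      rintro rfl
      exact h2 _ _ f3 w3
    have m4 : z4 ≠ w := by
      rintro rfl
      exact h2 _ _ f5 w1
    by_cases hw : Q w x
    · exact five (hm _ e1) (hm _ e2) (hm _ e3) (hm _ e4) (hm _ hw) n12 n13 n14 m1 n23 n24 m2 n34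
        m3 m4
    · obtain ⟨v, v1, v2⟩ := hU x w
      have k1 : z1 ≠ v := by
        rintro rfl
        exact h2 _ _ v2 w1
      have k3 : z3 ≠ v := by
        rintro rfl
        exact h2 _ _ v2 w3
      have k2 : z2 ≠ v := by
        rintro rfl
        exact h3 _ _ _ v2 w3 f3
      have k4 : z4 ≠ v := by
        rintro rfl
        exact h3 _ _ _ v2 w1 f5
      exact five (hm _ e1) (hm _ e2) (hm _ e3) (hm _ e4) (hm _ v1) n12 n13 n14 k1 n23 n24 k2 n34
        k3 k4
  · exact five (hm _ e1) (hm _ e2) (hm _ e3) (hm _ e4) (hm _ e5) n12 n13 n14 n15 n23 n24 n25 n34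
      n35 n45

lemma double_count (A : Finset W) :
    ∑ y ∈ A, (A.filter (fun z => Q z y)).card = ∑ y ∈ A, (A.filter (fun z => Q y z)).card := by
  simp only [Finset.card_filter]
  exact Finset.sum_comm

/-- Some vertex of `A` has at most `(|A| - 1) / 2` in-neighbours in `A`. -/
lemma min_in (h1 : ∀ x, ¬ Q x x) (h2 : ∀ x y, Q x y → ¬ Q y x) (A : Finset W) (hA : A.Nonempty) :
    ∃ y ∈ A, 2 * (A.filter (fun z => Q z y)).card + 1 ≤ A.card := by
  by_contra hcon
  push Not at hcon
  have h3 : ∀ y ∈ A, (A.filter (fun z => Q z y)).card + (A.filter (fun z => Q y z)).card + 1 ≤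
      A.card := by
    intro y hy
    have hd : Disjoint (A.filter (fun z => Q z y)) (A.filter (fun z => Q y z)) := by
      rw [Finset.disjoint_filter]
      intro z _ h h'
      exact h2 _ _ h h'
    rw [← Finset.card_union_of_disjoint hd]
    have h4 : (A.filter (fun z => Q z y)) ∪ (A.filter (fun z => Q y z)) ⊆ A.erase y := by
      intro z hz
      rw [Finset.mem_union, Finset.mem_filter, Finset.mem_filter] at hz
      rw [Finset.mem_erase]
      rcases hz with hz | hz
      · exact ⟨fun h => h1 y (by rw [h] at hz; exact hz.2), hz.1⟩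
      · exact ⟨fun h => h1 y (by rw [h] at hz; exact hz.2), hz.1⟩
    have h5 := Finset.card_le_card h4
    rw [Finset.card_erase_of_mem hy] at h5
    have h6 : 0 < A.card := Finset.card_pos.2 hA
    omega
  have h7 : ∑ y ∈ A, ((A.filter (fun z => Q z y)).card + (A.filter (fun z => Q y z)).card + 1) ≤
      ∑ _y ∈ A, A.card := Finset.sum_le_sum h3
  have h8 : ∑ _y ∈ A, A.card ≤ ∑ y ∈ A, 2 * (A.filter (fun z => Q z y)).card := by
    apply Finset.sum_le_sum
    intro y hy
    have := hcon y hy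
    omega
  have hdc := double_count (Q := Q) A
  rw [Finset.sum_add_distrib, Finset.sum_add_distrib] at h7
  rw [← Finset.mul_sum] at h8
  simp only [Finset.sum_const, smul_eq_mul, mul_one] at h7 h8
  have h9 : 0 < A.card := Finset.card_pos.2 hA
  omega

/-- If all in-degrees in `S` are at least `d` then there is `A ⊆ S` with `|A| ≥ d` and
`|S| ≥ 1 + |A| + 2 d - e` for the in-degree `e` in `A` of any vertex of `A`. -/
lemma step (h1 : ∀ x, ¬ Q x x) (h2 : ∀ x y, Q x y → ¬ Q y x)
    (h3 : ∀ x y z, Q x y → Q y z → ¬ Q z x) (S : Finset W) (hS : S.Nonempty) (d : ℕ)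
    (hin : ∀ y ∈ S, d ≤ (S.filter (fun z => Q z y)).card) :
    ∃ A ⊆ S, d ≤ A.card ∧ ∀ y ∈ A, 1 + A.card + 2 * d ≤
      S.card + (A.filter (fun z => Q z y)).card := by
  obtain ⟨x, hxS, hx⟩ : ∃ x ∈ S, d ≤ (S.filter (fun z => Q x z)).card := by
    by_contra hcon
    push Not at hcon
    have h4 : ∑ x ∈ S, ((S.filter (fun z => Q x z)).card + 1) ≤ ∑ _x ∈ S, d :=
      Finset.sum_le_sum (fun x hx => by have := hcon x hx; omega)
    have h5 : ∑ _x ∈ S, d ≤ ∑ x ∈ S, (S.filter (fun z => Q z x)).card :=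
      Finset.sum_le_sum (fun x hx => hin x hx)
    have hdc := double_count (Q := Q) S
    rw [Finset.sum_add_distrib] at h4
    simp only [Finset.sum_const, smul_eq_mul, mul_one] at h4 h5
    have h6 : 0 < S.card := Finset.card_pos.2 hS
    omega
  refine ⟨S.filter (fun z => Q z x), Finset.filter_subset _ _, hin x hxS, ?_⟩
  set A := S.filter (fun z => Q z x) with hA
  set B := S.filter (fun z => Q x z) with hB
  intro y hy
  have hyS : y ∈ S := by
    rw [hA, Finset.mem_filter] at hy
    exact hy.1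
  have hyx : Q y x := by
    rw [hA, Finset.mem_filter] at hy
    exact hy.2
  set C := (S.filter (fun z => Q z y)) \ A with hC
  have hCc : d ≤ (A.filter (fun z => Q z y)).card + C.card := by
    refine (hin y hyS).trans ?_
    refine le_trans (Finset.card_le_card ?_) (Finset.card_union_le _ _)
    intro z hz
    rw [Finset.mem_union]
    by_cases hzA : z ∈ A
    · left
      rw [Finset.mem_filter] at hz ⊢
      exact ⟨hzA, hz.2⟩
    · right
      rw [hC, Finset.mem_sdiff]
      exact ⟨hz, hzA⟩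
  have hAB : Disjoint A B := by
    rw [hA, hB, Finset.disjoint_filter]
    intro z _ h h'
    exact h2 _ _ h h'
  have hABC : Disjoint (A ∪ B) C := by
    rw [Finset.disjoint_left]
    intro z hz hzC
    rw [hC, Finset.mem_sdiff, Finset.mem_filter] at hzC
    rcases Finset.mem_union.1 hz with h | h
    · exact hzC.2 h
    · rw [hB, Finset.mem_filter] at h
      exact h3 _ _ _ hzC.1.2 hyx h.2
  have hxn : x ∉ (A ∪ B) ∪ C := by
    intro h
    rw [Finset.mem_union, Finset.mem_union] at h
    rcases h with (h | h) | h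
    · rw [hA, Finset.mem_filter] at h
      exact h1 _ h.2
    · rw [hB, Finset.mem_filter] at h
      exact h1 _ h.2
    · rw [hC, Finset.mem_sdiff, Finset.mem_filter] at h
      exact h2 _ _ h.1.2 hyx
  have hsub : insert x ((A ∪ B) ∪ C) ⊆ S := by
    intro z hz
    rw [Finset.mem_insert, Finset.mem_union, Finset.mem_union] at hz
    rcases hz with rfl | (h | h) | h
    · exact hxS
    · exact (Finset.mem_filter.1 h).1
    · exact (Finset.mem_filter.1 h).1
    · exact (Finset.mem_filter.1 (Finset.mem_sdiff.1 h).1).1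
  have h9 := Finset.card_le_card hsub
  rw [Finset.card_insert_of_notMem hxn, Finset.card_union_of_disjoint hABC,
    Finset.card_union_of_disjoint hAB] at h9
  omega

/-- A nonempty set of at most six vertices has a vertex with at most one in-neighbour in it. -/
lemma small_in (h1 : ∀ x, ¬ Q x x) (h2 : ∀ x y, Q x y → ¬ Q y x)
    (h3 : ∀ x y z, Q x y → Q y z → ¬ Q z x) (S : Finset W) (hS : S.Nonempty) (hc : S.card ≤ 6) :
    ∃ y ∈ S, (S.filter (fun z => Q z y)).card ≤ 1 := by
  by_contra hcon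
  push Not at hcon
  obtain ⟨A, -, hA, h⟩ := step h1 h2 h3 S hS 2 (fun y hy => hcon y hy)
  obtain ⟨y, hy, hyc⟩ := min_in h1 h2 A (Finset.card_pos.1 (by omega))
  have := h y hy
  omega

/-- A digraph without closed walks of length at most three in which any two vertices have a common
in-neighbour has at least 15 vertices. -/
lemma fifteen [Nonempty W] (h1 : ∀ x, ¬ Q x x) (h2 : ∀ x y, Q x y → ¬ Q y x)
    (h3 : ∀ x y z, Q x y → Q y z → ¬ Q z x) (hU : ∀ x y, ∃ z, Q z x ∧ Q z y) :
    15 ≤ Fintype.card W := by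
  obtain ⟨A, -, hA, h⟩ := step h1 h2 h3 Finset.univ Finset.univ_nonempty 5
    (fun y _ => five_le_in h1 h2 h3 hU y)
  rw [Finset.card_univ] at h
  have hAn : A.Nonempty := Finset.card_pos.1 (by omega)
  rcases Nat.lt_or_ge 6 A.card with h6 | h6
  · obtain ⟨y, hy, hyc⟩ := min_in h1 h2 A hAn
    have := h y hy
    omega
  · obtain ⟨y, hy, hyc⟩ := small_in h1 h2 h3 A hAn h6
    have := h y hy
    omega

end digraph

/-- The case `p = 2`. -/
lemma base {V : Type} {R : V → V → Prop} (g1 : ∀ x, ¬ R x x) (g2 : ∀ x y, R x y → ¬ R y x)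
    (g3 : ∀ x y z, R x y → R y z → ¬ R z x) (S : Finset V) (hS : S.Nonempty)
    (h : ∀ P ⊆ S, P.card ≤ 2 → ∃ z ∈ S, ∀ a ∈ P, R z a) : 15 ≤ S.card := by
  classical
  let W := {x // x ∈ S}
  let Q : W → W → Prop := fun x y => R x.1 y.1
  have hWc : Fintype.card W = S.card := Fintype.card_coe S
  have : Nonempty W := hS.to_subtype
  have hU : ∀ x y : W, ∃ z : W, Q z x ∧ Q z y := by
    intro x y
    have h2 : ({x.1, y.1} : Finset V) ⊆ S := by
      intro z hz
      rw [Finset.mem_insert, Finset.mem_singleton] at hz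
      rcases hz with rfl | rfl
      · exact x.2
      · exact y.2
    obtain ⟨u, hu, hua⟩ := h _ h2 Finset.card_le_two
    exact ⟨⟨u, hu⟩, hua _ (by simp), hua _ (by simp)⟩
  rw [← hWc]
  exact fifteen (W := W) (Q := Q) (fun x => g1 x.1) (fun x y => g2 x.1 y.1)
      (fun x y z => g3 x.1 y.1 z.1) hU

/-- If any `p` members of `S` have a common in-neighbour in `S`, and there are no closed walks of
length at most three, then `|S| + 1 ≥ 16 (5 / 2) ^ (p - 2)`. -/
lemma size_bound {V : Type} [Fintype V] [DecidableEq V] {R : V → V → Prop} [DecidableRel R]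
    (g1 : ∀ x, ¬ R x x) (g2 : ∀ x y, R x y → ¬ R y x)
    (g3 : ∀ x y z, R x y → R y z → ¬ R z x) (p : ℕ) (hp : 2 ≤ p) :
    ∀ S : Finset V, S.Nonempty → (∀ P ⊆ S, P.card ≤ p → ∃ z ∈ S, ∀ a ∈ P, R z a) →
      16 * 5 ^ (p - 2) ≤ 2 ^ (p - 2) * (S.card + 1) := by
  induction p, hp using Nat.le_induction with
  | base =>
    intro S hS h
    have := base g1 g2 g3 S hS h
    simp only [Nat.sub_self, pow_zero]
    omega
  | succ p hp ih =>
    intro S hS h
    have hin : ∀ x ∈ S, 16 * 5 ^ (p - 2) ≤ 2 ^ (p - 2) * ((S.filter (fun z => R z x)).card + 1) := by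
      intro x hx
      apply ih
      · obtain ⟨z, hz, hzx⟩ := h {x} (Finset.singleton_subset_iff.2 hx) (by
          rw [Finset.card_singleton]
          omega)
        exact ⟨z, Finset.mem_filter.2 ⟨hz, hzx x (Finset.mem_singleton_self x)⟩⟩
      · intro P hP hPc
        obtain ⟨z, hz, hza⟩ := h (insert x P)
          (Finset.insert_subset hx (hP.trans (Finset.filter_subset _ _)))
          ((Finset.card_insert_le _ _).trans (by omega))
        exact ⟨z, Finset.mem_filter.2 ⟨hz, hza x (Finset.mem_insert_self _ _)⟩,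
          fun a ha => hza a (Finset.mem_insert_of_mem ha)⟩
    obtain ⟨x0, hx0, hmin⟩ := Finset.exists_min_image S
      (fun x => (S.filter (fun z => R z x)).card) hS
    set d := (S.filter (fun z => R z x0)).card with hd
    have hd1 := hin x0 hx0
    rw [← hd] at hd1
    have hdpos : 1 ≤ d := by
      obtain ⟨z, hz, hzx⟩ := h {x0} (Finset.singleton_subset_iff.2 hx0) (by
        rw [Finset.card_singleton]
        omega)
      exact Finset.card_pos.2 ⟨z, Finset.mem_filter.2 ⟨hz, hzx x0 (Finset.mem_singleton_self x0)⟩⟩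
    obtain ⟨A, -, hA, hstep⟩ := step g1 g2 g3 S hS d hmin
    obtain ⟨y, hy, hyc⟩ := min_in g1 g2 A (Finset.card_pos.1 (by omega))
    have h5 := hstep y hy
    have h6 : 5 * (d + 1) ≤ 2 * (S.card + 1) := by omega
    obtain ⟨q, rfl⟩ : ∃ q, p = q + 2 := ⟨p - 2, by omega⟩
    have e1 : q + 2 + 1 - 2 = q + 1 := by omega
    have e2 : q + 2 - 2 = q := by omega
    rw [e1]
    rw [e2] at hd1
    calc 16 * 5 ^ (q + 1) = 5 * (16 * 5 ^ q) := by ring
      _ ≤ 5 * (2 ^ q * (d + 1)) := Nat.mul_le_mul_left 5 hd1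
      _ = 2 ^ q * (5 * (d + 1)) := by ring
      _ ≤ 2 ^ q * (2 * (S.card + 1)) := Nat.mul_le_mul_left _ h6
      _ = 2 ^ (q + 1) * (S.card + 1) := by ring

lemma exists_top {V : Type} [Fintype V] {R : V → V → Prop} {p r : ℕ} (hp : 2 ≤ p) (hpr : p < r)
    (h : 2 ^ (p - 2) * (r + 1) < 16 * 5 ^ (p - 2))
    (hR : ∀ m, 1 ≤ m → m ≤ 3 → ∀ x, ¬ Iter R m x x) (E : Finset V) (hE : E.card = r) :
    ∃ P ⊆ E, P.card = p ∧ ∀ u ∈ E, ∃ a ∈ P, ¬ R u a := by
  classical
  by_contra hcon
  push Not at hcon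
  have g1 : ∀ x, ¬ R x x := fun x hx => hR 1 le_rfl (by norm_num) x ⟨x, hx, rfl⟩
  have g2 : ∀ x y, R x y → ¬ R y x := fun x y hxy hyx =>
    hR 2 (by norm_num) (by norm_num) x ⟨y, hxy, x, hyx, rfl⟩
  have g3 : ∀ x y z, R x y → R y z → ¬ R z x := fun x y z hxy hyz hzx =>
    hR 3 (by norm_num) (by norm_num) x ⟨y, hxy, z, hyz, x, hzx, rfl⟩
  have h1 := size_bound g1 g2 g3 p hp E (Finset.card_pos.1 (by omega)) (fun P hP hPc => by
    obtain ⟨P', hP1, hP2, hP3⟩ := Finset.exists_subsuperset_card_eq hP hPc (by omega)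
    obtain ⟨u, hu, hua⟩ := hcon P' hP2 hP3
    exact ⟨u, hu, fun a ha => hua a (hP1 ha)⟩)
  rw [hE] at h1
  omega

/-- **`Γ_p(H(n,r)) ≥ √(log₂ n / 126)` for `r + 1 < 16 (5 / 2) ^ (p - 2)` and `n ≥ r`**, for instance
for `p = 2`, `r ≤ 14`; `p = 3`, `r ≤ 38`; `p = 4`, `r ≤ 98`. -/
theorem result (p r : ℕ) (hp : 2 ≤ p) (hpr : p < r)
    (h : 2 ^ (p - 2) * (r + 1) < 16 * 5 ^ (p - 2)) (n : ℕ) (hn : r ≤ n) :
    Real.sqrt (Real.logb 2 n / 126) ≤ (Gamma p n r : ℝ) := by
  have hn1 : 1 ≤ n := by omega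
  have hn0 : (0 : ℝ) < n := by exact_mod_cast hn1
  have hlog : 0 ≤ Real.logb 2 n := Real.logb_nonneg (by norm_num) (by exact_mod_cast hn1)
  set x : ℝ := Real.sqrt (Real.logb 2 n / 126) with hx
  have hx0 : 0 ≤ x := Real.sqrt_nonneg _
  have hx2 : x ^ 2 = Real.logb 2 n / 126 := Real.sq_sqrt (by positivity)
  set k := ⌊x⌋₊ with hk
  have hkx : (k : ℝ) ≤ x := Nat.floor_le hx0
  have hxk : x < k + 1 := Nat.lt_floor_add_one x
  have key : k < Gamma p n r := by
    rcases Nat.eq_zero_or_pos k with h0 | hkpos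
    · rw [h0]
      exact one_le_Gamma hpr (by omega) hn1
    · have h1 : (k : ℝ) ^ 2 ≤ Real.logb 2 n / 126 := by
        rw [← hx2]
        exact pow_le_pow_left₀ (Nat.cast_nonneg k) hkx 2
      have h3 : 2 ^ (7 * 3 * (3 : ℕ).factorial * k ^ (3 - 1)) ≤ n := by
        have h4 : ((7 * 3 * (3 : ℕ).factorial * k ^ (3 - 1) : ℕ) : ℝ) ≤ Real.logb 2 n := by
          have h5 : (7 * 3 * (3 : ℕ).factorial * k ^ (3 - 1) : ℕ) = 126 * k ^ 2 := by
            simp [Nat.factorial]
          rw [h5]
          push_cast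
          rw [le_div_iff₀ (by norm_num)] at h1
          linarith
        rw [Real.le_logb_iff_rpow_le (by norm_num) hn0, Real.rpow_natCast] at h4
        exact_mod_cast h4
      obtain ⟨R, hU, hR⟩ := on_fin k hkpos 3 (by norm_num) n h3
      exact Pool.Agent.Results.MP_869403_co.LogPowerLower.lt_Gamma_of hpr R hU
        (fun x hx => hR 1 le_rfl (by norm_num) x ⟨x, hx, rfl⟩)
        (fun E hE => exists_top hp hpr h hR E hE) hn1
  have h5 : ((k + 1 : ℕ) : ℝ) ≤ (Gamma p n r : ℝ) := by exact_mod_cast key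
  push_cast at h5
  linarith

end Pool.Agent.Results.MP_869403_co.SqrtLogLower
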