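import Pool.Agent.H217.Fano.Params
import Pool.Agent.H217.Fano.Nine

/-!
# For which `r` is `Γ_2(H(n,r))` of order `log n`?  Exactly for `r ≤ 6`

For `r ≥ 7` the upper directed 2-domination number `Γ_2(H(n,r))` is `O(log n / log log n)`.  For
`3 ≤ r ≤ 6` it is of order `log n` (this part is in the library).  So `6` is the threshold.

Proof.  Fix an orientation without directed 2-dominating set of size `K + r`.  Let `Esc u S` mean
that no edge containing `u` has its first two vertices in `S`.  Every set `S` of at most `K + r`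
vertices is escaped by some vertex.  If `K ≥ 448 log n / log log n` and `n` is large then there are
seven vertices `v₁, …, v₇` such that `vᵢ` escapes the union of the `i`-th line of a Fano plane on
the seven vertices and of a fixed `r`-set `T`.  (The seven lines are the out-neighbourhoods in the
quadratic residue tournament on seven vertices, the smallest tournament in which any two vertices
have a common in-neighbour.)  Any two of the vertices `v₁, …, v₇` and of the vertices of `T` lie
in such a union, so they are escaped by one of the `vᵢ`.  An edge that contains `v₁, …, v₇` and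
otherwise vertices of `T` has two first vertices, which are escaped by a vertex of the edge:
a contradiction.

The seven vertices are found as follows (`Pool.Agent.H217.Fano`).  By the minimax theorem for every
set `Q` of at most `K / 2` vertices there is a probability distribution on the vertices such that
for every set `P` of `m` vertices the set `Q ∪ P` is escaped with probability at least
`exp (- A m - 1) / 2`, where `A = 4 log n / K`.  With these distributions one chooses finite sets
`S₁, …, S₅` of candidates for `v₁, …, v₅`, whose sizes are powers of `exp A` with increasing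
exponents in the order `S₃`, `S₂` and `S₅`, `S₁`, `S₄`, such that every `Sᵢ` contains a suitable
candidate for almost all choices of the other vertices; then `v₆` and `v₇` are chosen, and at last
the candidates.
-/

set_option autoImplicit false

namespace Pool.Agent.Results.MP_869403_co.TwoDominationOrder

open Finset Pool.Agent.Y400.Dom Pool.Agent.Results.MP_869403_co.LogOrder
open Pool.Agent.H217.Fano.Nine

/-- The seven lines of the Fano plane. -/
def line : Fin 7 → Finset (Fin 7) :=
  ![{1, 3, 5}, {2, 3, 6}, {0, 3, 4}, {4, 5, 6}, {0, 1, 6}, {1, 2, 4}, {0, 2, 5}]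

lemma line_pair : ∀ i j : Fin 7, ∃ k, i ∈ line k ∧ j ∈ line k := by decide

/-- The main step: if `K` is large compared with `log n` then `γ_2 ≤ K + r`. -/
lemma main_step {n r K : ℕ} (hr : 7 ≤ r) (hn : r ≤ n) {A : ℝ} (hA : 0 ≤ A)
    (hcard : 4 * Real.log n ≤ A * K) (hK : 4 * Real.exp (28 * (A + 1)) ≤ K)
    (D : Orientation n r) : gamma 2 D ≤ K + r := by
  classical
  by_contra hcon
  push Not at hcon
  obtain ⟨T, _, hT⟩ := Finset.exists_subset_card_eq
    (s := (Finset.univ : Finset (Fin n))) (n := r) (by rwa [Finset.card_univ, Fintype.card_fin])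
  obtain ⟨v1, v2, v3, v4, v5, v6, v7, h1, h2, h3, h4, h5, h6, h7⟩ :=
    Pool.Agent.H217.Fano.fano (V := Fin n) (E := fun u S => Esc D u (S ∪ T))
      (fun u S S' hS h => h.mono (Finset.union_subset_union hS (subset_refl T)))
      (K := K) (fun S hS => exists_esc hcon (S ∪ T)
        ((Finset.card_union_le _ _).trans (by omega))) hA
      (by rwa [Fintype.card_fin]) hK
  set v : Fin 7 → Fin n := ![v1, v2, v3, v4, v5, v6, v7] with hv
  have hline : ∀ k, Esc D (v k) ((line k).image v ∪ T) := by
    intro k
    fin_cases k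
    · refine Esc.mono h1 (fun z hz => ?_)
      simp [line, hv] at hz ⊢
      tauto
    · refine Esc.mono h2 (fun z hz => ?_)
      simp [line, hv] at hz ⊢
      tauto
    · refine Esc.mono h3 (fun z hz => ?_)
      simp [line, hv] at hz ⊢
      tauto
    · refine Esc.mono h4 (fun z hz => ?_)
      simp [line, hv] at hz ⊢
      tauto
    · refine Esc.mono h5 (fun z hz => ?_)
      simp [line, hv] at hz ⊢
      tauto
    · refine Esc.mono h6 (fun z hz => ?_)
      simp [line, hv] at hz ⊢
      tauto
    · refine Esc.mono h7 (fun z hz => ?_)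
      simp [line, hv] at hz ⊢
      tauto
  set X : Finset (Fin n) := Finset.univ.image v with hX
  have hXc : X.card ≤ r := by
    have h8 : X.card ≤ 7 := Finset.card_image_le.trans (by simp)
    omega
  obtain ⟨E, hE1, hE2, hE3⟩ := Finset.exists_subsuperset_card_eq
    (Finset.subset_union_left : X ⊆ X ∪ T) hXc
    (hT.ge.trans (Finset.card_le_card Finset.subset_union_right))
  -- any two members of `X ∪ T` are escaped by a member of `X`
  have key : ∀ x ∈ X ∪ T, ∀ y ∈ X ∪ T, ∃ u ∈ X, Esc D u {x, y} := by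
    have hmemX : ∀ k, v k ∈ X := fun k => Finset.mem_image_of_mem _ (Finset.mem_univ k)
    have hcase : ∀ x ∈ X ∪ T, ∃ i, x = v i ∨ x ∈ T := by
      intro x hx
      rcases Finset.mem_union.1 hx with hx | hx
      · obtain ⟨i, _, hi⟩ := Finset.mem_image.1 hx
        exact ⟨i, Or.inl hi.symm⟩
      · exact ⟨0, Or.inr hx⟩
    intro x hx y hy
    obtain ⟨i, hi⟩ := hcase x hx
    obtain ⟨j, hj⟩ := hcase y hy
    obtain ⟨k, hik, hjk⟩ := line_pair i j
    refine ⟨v k, hmemX k, (hline k).mono ?_⟩
    intro z hz
    rw [Finset.mem_insert, Finset.mem_singleton] at hz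
    rcases hz with rfl | rfl
    · rcases hi with rfl | hi
      · exact Finset.mem_union_left _ (Finset.mem_image_of_mem _ hik)
      · exact Finset.mem_union_right _ hi
    · rcases hj with rfl | hj
      · exact Finset.mem_union_left _ (Finset.mem_image_of_mem _ hjk)
      · exact Finset.mem_union_right _ hj
  have hr0 : 0 < r := by omega
  have hr1 : 1 < r := by omega
  set x := (D ⟨E, hE3⟩ ⟨0, hr0⟩).1 with hx
  set y := (D ⟨E, hE3⟩ ⟨1, hr1⟩).1 with hy
  have hxE : x ∈ E := (D ⟨E, hE3⟩ ⟨0, hr0⟩).2
  have hyE : y ∈ E := (D ⟨E, hE3⟩ ⟨1, hr1⟩).2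
  obtain ⟨u, hu, h⟩ := key x (hE2 hxE) y (hE2 hyE)
  obtain ⟨i, hi, h8⟩ := h ⟨E, hE3⟩ (hE1 hu)
  apply h8
  rcases Nat.lt_or_ge i.val 1 with h9 | h9
  · have h10 : i = ⟨0, hr0⟩ := Fin.ext (by show i.val = 0; omega)
    rw [h10]
    exact Finset.mem_insert_self _ _
  · have h10 : i = ⟨1, hr1⟩ := Fin.ext (by show i.val = 1; omega)
    rw [h10]
    exact Finset.mem_insert_of_mem (Finset.mem_singleton_self _)

lemma log_tendsto : Filter.Tendsto (fun n : ℕ => Real.log n) Filter.atTop Filter.atTop :=
  Real.tendsto_log_atTop.comp tendsto_natCast_atTop_atTop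

lemma loglog_tendsto :
    Filter.Tendsto (fun n : ℕ => Real.log (Real.log n)) Filter.atTop Filter.atTop :=
  Real.tendsto_log_atTop.comp log_tendsto

/-- The numerical condition holds for all large `L = log n`. -/
lemma numeric : ∀ᶠ L : ℝ in Filter.atTop, 1 < L ∧ 0 < Real.log L ∧
    4 * Real.exp (28 * (Real.log L / 112 + 1)) ≤ 448 * (L / Real.log L) := by
  have h1 := (isLittleO_log_rpow_atTop (show (0 : ℝ) < 1 / 4 by norm_num)).bound
    (show (0 : ℝ) < 1 by norm_num)
  have h2 := (tendsto_rpow_atTop (show (0 : ℝ) < 1 / 2 by norm_num)).eventually_ge_atTop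
    (Real.exp 28)
  filter_upwards [h1, h2, Filter.eventually_gt_atTop 1] with L h3 h4 h5
  have hL0 : 0 < L := by linarith
  have hl : 0 < Real.log L := Real.log_pos h5
  refine ⟨h5, hl, ?_⟩
  rw [Real.norm_of_nonneg hl.le, Real.norm_of_nonneg (Real.rpow_nonneg hL0.le _), one_mul] at h3
  have h6 : Real.exp (28 * (Real.log L / 112 + 1)) = L ^ (1 / 4 : ℝ) * Real.exp 28 := by
    rw [Real.rpow_def_of_pos hL0, ← Real.exp_add]
    congr 1
    ring
  have h7 : L ^ (1 / 4 : ℝ) * L ^ (1 / 2 : ℝ) * L ^ (1 / 4 : ℝ) = L := by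
    rw [← Real.rpow_add hL0, ← Real.rpow_add hL0]
    norm_num
  have h8 : 0 < L ^ (1 / 4 : ℝ) := Real.rpow_pos_of_pos hL0 _
  have h9 : L ^ (1 / 4 : ℝ) * Real.exp 28 * Real.log L ≤ L := by
    calc L ^ (1 / 4 : ℝ) * Real.exp 28 * Real.log L ≤
          L ^ (1 / 4 : ℝ) * L ^ (1 / 2 : ℝ) * L ^ (1 / 4 : ℝ) := by gcongr
      _ = L := h7
  rw [h6, ← mul_div_assoc, le_div_iff₀ hl]
  linarith

/-- The upper bound for all large `n`. -/
lemma upper {r : ℕ} (hr : 7 ≤ r) : ∀ᶠ n : ℕ in Filter.atTop,
    (Gamma 2 n r : ℝ) ≤ 449 * (Real.log n / Real.log (Real.log n)) + r := by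
  filter_upwards [log_tendsto.eventually numeric, Filter.eventually_ge_atTop r] with n h hn
  obtain ⟨h1, h2, h3⟩ := h
  set L := Real.log n with hL
  set K := ⌈448 * (L / Real.log L)⌉₊ with hK
  have hL0 : 0 < L := by linarith
  have hK1 : 448 * (L / Real.log L) ≤ K := Nat.le_ceil _
  have hK2 : (K : ℝ) ≤ 448 * (L / Real.log L) + 1 := (Nat.ceil_lt_add_one (by positivity)).le
  have h4 : ∀ D : Orientation n r, gamma 2 D ≤ K + r := by
    intro D
    apply main_step hr hn (A := Real.log L / 112) (by positivity) _ (h3.trans hK1) D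
    calc 4 * Real.log n = Real.log L / 112 * (448 * (L / Real.log L)) := by
          rw [← hL]
          field_simp
          ring
      _ ≤ Real.log L / 112 * K := mul_le_mul_of_nonneg_left hK1 (by positivity)
  have h5 : (Gamma 2 n r : ℝ) ≤ ((K + r : ℕ) : ℝ) := by exact_mod_cast Gamma_le h4
  push_cast at h5
  have h6 : 1 ≤ L / Real.log L := by
    rw [one_le_div h2]
    have := Real.log_le_sub_one_of_pos hL0
    linarith
  linarith

/-- **The order of the upper directed 2-domination number.**
(1) For every `r ≥ 7`: `Γ_2(H(n,r)) = O(log n / log log n)`.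
(2) For `r ≥ 3` the order of magnitude of `Γ_2(H(n,r))` is `log n` if and only if `r ≤ 6`; for
`r ≥ 7` the quotient `Γ_2(H(n,r)) / log n` tends to zero.
(3) For all `n ≥ r ≥ 9`: `Γ_2(H(n,r)) ≤ 100 log n / log log n + r`. -/
theorem result :
    (∀ r : ℕ, 7 ≤ r → (fun n : ℕ => (Gamma 2 n r : ℝ)) =O[Filter.atTop]
      (fun n : ℕ => Real.log n / Real.log (Real.log n))) ∧
    (∀ r : ℕ, 3 ≤ r →
      (((fun n : ℕ => (Gamma 2 n r : ℝ)) =Θ[Filter.atTop] (fun n : ℕ => Real.log n)) ↔ r ≤ 6) ∧
      (7 ≤ r → (fun n : ℕ => (Gamma 2 n r : ℝ)) =o[Filter.atTop] (fun n : ℕ => Real.log n))) ∧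
    (∀ r : ℕ, 9 ≤ r → ∀ n : ℕ, r ≤ n →
      (Gamma 2 n r : ℝ) ≤ 100 * (Real.log n / Real.log (Real.log n)) + r) := by
  have hO : ∀ r : ℕ, 7 ≤ r → (fun n : ℕ => (Gamma 2 n r : ℝ)) =O[Filter.atTop]
      (fun n : ℕ => Real.log n / Real.log (Real.log n)) := by
    intro r hr
    apply Asymptotics.IsBigO.of_bound (449 + r : ℝ)
    filter_upwards [upper hr, log_tendsto.eventually_gt_atTop 1,
      loglog_tendsto.eventually_gt_atTop 0] with n h5 h1 h2
    have h3 : Real.log (Real.log n) ≤ Real.log n - 1 :=
      Real.log_le_sub_one_of_pos (by linarith)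
    have h4 : 1 ≤ Real.log n / Real.log (Real.log n) := by
      rw [one_le_div h2]
      linarith
    rw [Real.norm_of_nonneg (Nat.cast_nonneg _), Real.norm_of_nonneg (by linarith)]
    have h6 : (r : ℝ) ≤ r * (Real.log n / Real.log (Real.log n)) :=
      le_mul_of_one_le_right (Nat.cast_nonneg _) h4
    linarith
  have ho : ∀ r : ℕ, 7 ≤ r → (fun n : ℕ => (Gamma 2 n r : ℝ)) =o[Filter.atTop]
      (fun n : ℕ => Real.log n) := by
    intro r hr
    apply (hO r hr).trans_isLittleO
    rw [Asymptotics.isLittleO_iff_tendsto']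
    · have h1 : Filter.Tendsto (fun n : ℕ => (Real.log (Real.log n))⁻¹) Filter.atTop (nhds 0) :=
        Filter.Tendsto.inv_tendsto_atTop loglog_tendsto
      apply h1.congr'
      filter_upwards [log_tendsto.eventually_gt_atTop 0] with n hn
      field_simp
    · filter_upwards [log_tendsto.eventually_gt_atTop 0] with n hn h
      exact absurd h hn.ne'
  refine ⟨hO, fun r hr => ⟨⟨fun h => ?_, fun h => ?_⟩, ho r⟩, fun r hr n hn => ?_⟩
  · by_contra hcon
    have h1 := h.2.trans_isLittleO (ho r (by omega))
    have h2 := h1.def (show (0 : ℝ) < 1 / 2 by norm_num)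
    obtain ⟨n, h3, h4⟩ := (h2.and (log_tendsto.eventually_gt_atTop 0)).exists
    rw [Real.norm_of_nonneg h4.le] at h3
    linarith
  · exact (Pool.Agent.Results.MP_869403_co.LogOrder.result r 2 (by norm_num) (by omega)
      (by norm_num; omega)).2
  · exact Pool.Agent.H217.Fano.Nine.explicit hr hn

end Pool.Agent.Results.MP_869403_co.TwoDominationOrder
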